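import Mathlib
import Pool.Agent.Helper179.KSDefs
import Pool.Agent.N252.CS.Final

/-!
# A non-deterministic basic sequence for which normality implies distribution normality

There is a dynamically generated basic sequence `Q` of positive entropy with `N(Q) ⊆ DN(Q)`, so that
`N(Q) \ DN(Q)` is empty.

Cells of three bases carry one bit of a hierarchical parity-check code of positive rate; the bit
chooses which of two bases is `2` and which is `128`. A normal point has the digit statistics of a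
random point, and the digits of a random point determine the bases. So normality implies uniform
normality, which implies distribution normality.
-/

set_option autoImplicit false

open Finset Filter Topology MeasureTheory
open Pool.Agent.Helper179.KS Pool.Agent.N252

namespace Pool.Agent.Results.MP_2f0ae6_an.NormalImpliesDistNormal

/-- `Q` is a basic sequence `q_1, q_2, ...` (the value `Q 0` plays no role). -/
def IsBasic (Q : ℕ → ℕ) : Prop := ∀ n ≥ 1, 2 ≤ Q n

/-- The product `q_1 q_2 ⋯ q_n`. -/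
def prodQ (Q : ℕ → ℕ) (n : ℕ) : ℝ := ∏ i ∈ Icc 1 n, (Q i : ℝ)

/-- `x = ∑_{n ≥ 1} d_n / (q_1 ⋯ q_n)` is the Cantor series expansion of `x` with respect to `Q`: the
digits satisfy `0 ≤ d_n ≤ q_n - 1`, and `d_n ≠ q_n - 1` for infinitely many `n`. -/
def IsExpansion (Q d : ℕ → ℕ) (x : ℝ) : Prop :=
  (∀ n ≥ 1, d n < Q n) ∧ (∃ᶠ n in atTop, d n + 1 ≠ Q n) ∧
    HasSum (fun n : ℕ => (d (n + 1) : ℝ) / prodQ Q (n + 1)) x

open Classical in
/-- `Q_n(D) = ∑_{j=1}^n I_{Q,j}(D) / (q_j ⋯ q_{j+l-1})`, where `I_{Q,j}(D) = 1` if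
`D i < q_{j+i}` for all `i = 0, ..., l-1`, and `0` otherwise. -/
noncomputable def Qn (Q : ℕ → ℕ) {l : ℕ} (D : Fin l → ℕ) (n : ℕ) : ℝ :=
  ∑ j ∈ Icc 1 n, (if ∀ i : Fin l, D i < Q (j + i) then (1 : ℝ) else 0) /
    ∏ i : Fin l, (Q (j + i) : ℝ)

open Classical in
/-- `N_n^Q(D, x)`, the number of `i ≤ n` with `(d_{i+1}, ..., d_{i+l}) = D`, where `d` is the sequence
of digits of `x`. -/
noncomputable def Nn (d : ℕ → ℕ) {l : ℕ} (D : Fin l → ℕ) (n : ℕ) : ℕ :=
  ((range (n + 1)).filter fun i => ∀ j : Fin l, d (i + (j + 1)) = D j).card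

/-- `N(Q)`, the set of the `Q`-normal numbers in `[0,1)`. -/
def Normal (Q : ℕ → ℕ) : Set ℝ :=
  {x | x ∈ Set.Ico (0 : ℝ) 1 ∧ ∃ d, IsExpansion Q d x ∧ ∀ (l : ℕ) (D : Fin l → ℕ), 1 ≤ l →
    Tendsto (Qn Q D) atTop atTop → Tendsto (fun n => (Nn d D n : ℝ) / Qn Q D n) atTop (𝓝 1)}

open Classical in
/-- `DN(Q)`, the set of the `Q`-distribution normal numbers in `[0,1)`: the sequence
`(q_1 ⋯ q_n x mod 1)_{n ≥ 1}` is uniformly distributed in `[0,1)`. -/
def DistNormal (Q : ℕ → ℕ) : Set ℝ :=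
  {x | x ∈ Set.Ico (0 : ℝ) 1 ∧ ∀ a b : ℝ, 0 ≤ a → a ≤ b → b ≤ 1 →
    Tendsto (fun N : ℕ => (((Icc 1 N).filter fun n => a ≤ Int.fract (prodQ Q n * x) ∧
      Int.fract (prodQ Q n * x) < b).card : ℝ) / N) atTop (𝓝 (b - a))}

/-- `Q` is dynamically generated by a system of positive entropy: there are a complete separable
metric space `X`, a Borel probability measure `μ` on `X` positive on nonempty open sets, a continuous
`μ`-preserving map `T`, a continuous `f : X → ℕ_{≥ 2}` such that the topology of `X` is generated by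
the smallest `T`-invariant family containing the preimages of sets under `f`, and a point `x` which is
generic for `μ`, with `q_n = f (T^n x)` for all `n ≥ 1`; and the Kolmogorov-Sinai entropy `h_μ(T)` is
positive. -/
def NonDetDynGenerated (Q : ℕ → ℕ) : Prop :=
  ∃ (X : Type) (_ : MetricSpace X) (_ : CompleteSpace X) (_ : TopologicalSpace.SeparableSpace X)
    (_ : MeasurableSpace X) (_ : BorelSpace X) (μ : Measure X) (T : X → X) (f : X → ℕ) (x : X),
    IsProbabilityMeasure μ ∧ (∀ U : Set X, IsOpen U → U.Nonempty → 0 < μ U) ∧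
    Continuous T ∧ MeasurePreserving T μ μ ∧ Continuous f ∧ (∀ z, 2 ≤ f z) ∧
    (inferInstance : TopologicalSpace X) = TopologicalSpace.generateFrom
      {U | ∃ (k : ℕ) (A : Set ℕ), U = T^[k] ⁻¹' (f ⁻¹' A)} ∧
    (∀ F : X → ℝ, Continuous F → Integrable F μ →
      Tendsto (fun N : ℕ => (∑ n ∈ Icc 1 N, F (T^[n] x)) / N) atTop (𝓝 (∫ z, F z ∂μ))) ∧
    (∀ n ≥ 1, Q n = f (T^[n] x)) ∧ 0 < ksEntropy μ T

/-- `A` is a `Π⁰₃` set: a countable intersection of countable unions of closed sets. -/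
def IsPi03 {Y : Type} [TopologicalSpace Y] (A : Set Y) : Prop :=
  ∃ F : ℕ → ℕ → Set Y, (∀ m n, IsClosed (F m n)) ∧ A = ⋂ m, ⋃ n, F m n

/-- `S` belongs to `D₂(Π⁰₃)`: it is the difference of two `Π⁰₃` sets. -/
def IsD2 {Y : Type} [TopologicalSpace Y] (S : Set Y) : Prop :=
  ∃ A B : Set Y, IsPi03 A ∧ IsPi03 B ∧ S = A \ B

/-- The set `S ⊆ [0,1)` is `D₂(Π⁰₃)`-complete: as a subset of `[0,1)` it belongs to `D₂(Π⁰₃)`, and every
`D₂(Π⁰₃)` subset of a zero-dimensional Polish space is a preimage of it under a continuous map into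
`[0,1)`. -/
def IsD2Complete (S : Set ℝ) : Prop :=
  IsD2 {x : Set.Ico (0 : ℝ) 1 | (x : ℝ) ∈ S} ∧
    ∀ (Y : Type) [TopologicalSpace Y] [PolishSpace Y],
      TopologicalSpace.IsTopologicalBasis {U : Set Y | IsClopen U} → ∀ C : Set Y, IsD2 C →
        ∃ g : Y → Set.Ico (0 : ℝ) 1, Continuous g ∧ C = {z | (g z : ℝ) ∈ S}

/-- There is a basic sequence `Q`, dynamically generated by a system of positive entropy, for which
every `Q`-normal number is `Q`-distribution normal. So `N(Q) \ DN(Q)` is empty; it does not have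
Hausdorff dimension `1`, and it is not `D₂(Π⁰₃)`-complete. -/
theorem result : ∃ Q : ℕ → ℕ, IsBasic Q ∧ NonDetDynGenerated Q ∧ Normal Q ⊆ DistNormal Q ∧
    Normal Q \ DistNormal Q = ∅ ∧ dimH (Normal Q \ DistNormal Q) < 1 ∧
    ¬ IsD2Complete (Normal Q \ DistNormal Q) := by
  classical
  obtain ⟨y, hy, he⟩ := CS.exists_equi
  have hQ := CS.two_le_q y
  have hM := CS.q_le y
  have hsub : Normal (CS.q y) ⊆ DistNormal (CS.q y) := by
    rintro x ⟨hx01, d, ⟨hd, hinf, hx⟩, hnorm⟩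
    refine ⟨hx01, fun a b ha hab hb => ?_⟩
    have hhyp : CS.Hyp (CS.q y) (CS.dz d) := CS.hyp_of hQ hM (CS.dz_lt hQ hd) fun l D hl =>
      ⟨fun n => (Nn d D n : ℝ), Qn (CS.q y) D, 3, CS.card_close d D, CS.Qn_close hQ D,
        hnorm l D hl⟩
    exact CS.dist_normal hQ hd hx hM hinf (CS.unif_of_hyp hy hd hhyp) ha hab hb
  have hempty : Normal (CS.q y) \ DistNormal (CS.q y) = ∅ := Set.sdiff_eq_empty.mpr hsub
  refine ⟨CS.q y, fun n _ => hQ n, CS.exists_system hy he, hsub, hempty, ?_, ?_⟩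
  · rw [hempty, dimH_empty]; exact zero_lt_one
  · rw [hempty]
    rintro ⟨-, h⟩
    have hbasis : TopologicalSpace.IsTopologicalBasis {U : Set ℕ | IsClopen U} :=
      TopologicalSpace.isTopologicalBasis_of_isOpen_of_nhds (fun U hU => hU.isOpen)
        (fun a U ha hU => ⟨U, isClopen_discrete U, ha, subset_rfl⟩)
    obtain ⟨g, -, hg⟩ := h ℕ hbasis Set.univ
      ⟨Set.univ, ∅, ⟨fun _ _ => Set.univ, fun _ _ => isClosed_univ, by ext; simp⟩,
        ⟨fun _ _ => ∅, fun _ _ => isClosed_empty, by ext; simp⟩, by simp⟩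
    have : (0 : ℕ) ∈ (Set.univ : Set ℕ) := Set.mem_univ 0
    rw [hg] at this
    exact this

end Pool.Agent.Results.MP_2f0ae6_an.NormalImpliesDistNormal
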